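import Mathlib
import Pool.Agent.H744R2.KZ.Props

open scoped ComplexOrder InnerProductSpace ComplexConjugate Topology
open Finset Filter

noncomputable section

namespace H744R2.KZ

open H759R2.Kad

universe u

namespace LSumAux

variable {H : Type u} [NormedAddCommGroup H] [InnerProductSpace ℂ H] [CompleteSpace H]

theorem inner_star_left (a : H →L[ℂ] H) (x y : H) : ⟪(star a) x, y⟫_ℂ = ⟪x, a y⟫_ℂ := by
  rw [ContinuousLinearMap.star_eq_adjoint, ContinuousLinearMap.adjoint_inner_left]

theorem inner_star_right (a : H →L[ℂ] H) (x y : H) : ⟪x, (star a) y⟫_ℂ = ⟪a x, y⟫_ℂ := by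
  rw [ContinuousLinearMap.star_eq_adjoint, ContinuousLinearMap.adjoint_inner_right]

/-- if `star v * v` is idempotent then `v` is a partial isometry -/
theorem isPI_of_idem {v : H →L[ℂ] H} (h : (star v * v) * (star v * v) = star v * v) : IsPI v := by
  have h2 : star (v * (star v * v) - v) * (v * (star v * v) - v) = 0 := by
    rw [star_sub, star_mul, star_mul, star_star]
    have : (star v * v * star v - star v) * (v * (star v * v) - v) =
        (star v * v) * (star v * v) * (star v * v) - (star v * v) * (star v * v)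
          - (star v * v) * (star v * v) + star v * v := by noncomm_ring
    rw [this, h, h]; abel
  have h3 := (CStarRing.star_mul_self_eq_zero_iff _).1 h2
  unfold IsPI
  rw [mul_assoc]
  exact sub_eq_zero.1 h3

theorem idem_of_isPI {v : H →L[ℂ] H} (hv : IsPI v) :
    (star v * v) * (star v * v) = star v * v := by
  have h : v * star v * v = v := hv
  calc (star v * v) * (star v * v) = star v * (v * star v * v) := by simp only [mul_assoc]
    _ = _ := by rw [h]

theorem isPI_star {v : H →L[ℂ] H} (hv : IsPI v) : IsPI (star v) := by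
  have h : v * star v * v = v := hv
  have := congrArg star h
  rw [star_mul, star_mul, star_star] at this
  unfold IsPI
  rw [star_star, mul_assoc]
  exact this

/-- finite Bessel -/
theorem bessel {I : Type u} (b : I → (H →L[ℂ] H)) (hb : ∀ i, IsPI (b i))
    (ho : ∀ i j, i ≠ j → star (b i) * b j = 0) (s : Finset I) (ξ : H) :
    ∑ i ∈ s, ‖(star (b i)) ξ‖ ^ 2 ≤ ‖ξ‖ ^ 2 := by
  classical
  set P : H →L[ℂ] H := ∑ i ∈ s, b i * star (b i) with hP
  have hPs : star P = P := by
    rw [hP, star_sum]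
    refine Finset.sum_congr rfl fun i _ => ?_
    rw [star_mul, star_star]
  have hPP : P * P = P := by
    rw [hP, Finset.sum_mul]
    refine Finset.sum_congr rfl fun i hi => ?_
    rw [Finset.mul_sum, Finset.sum_eq_single i]
    · have h : b i * star (b i) * b i = b i := hb i
      rw [← mul_assoc, h]
    · intro j _ hj
      rw [mul_assoc, ← mul_assoc (star (b i)), ho i j (Ne.symm hj)]
      simp
    · intro h; exact absurd hi h
  have hsum : ((∑ i ∈ s, ‖(star (b i)) ξ‖ ^ 2 : ℝ) : ℂ) = ⟪ξ, P ξ⟫_ℂ := by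
    rw [hP]
    rw [_root_.sum_apply, inner_sum]
    push_cast
    refine Finset.sum_congr rfl fun i _ => ?_
    change _ = ⟪ξ, b i (star (b i) ξ)⟫_ℂ
    rw [← inner_star_left, inner_self_eq_norm_sq_to_K]
    norm_cast
  have hPn : ((‖P ξ‖ ^ 2 : ℝ) : ℂ) = ⟪ξ, P ξ⟫_ℂ := by
    have : ⟪P ξ, P ξ⟫_ℂ = ⟪ξ, P ξ⟫_ℂ := by
      conv_lhs => rw [← inner_star_right, hPs, ← mul_apply_eq_comp, hPP]
    rw [← this, inner_self_eq_norm_sq_to_K]
    norm_cast
  have e : ∑ i ∈ s, ‖(star (b i)) ξ‖ ^ 2 = ‖P ξ‖ ^ 2 := by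
    have := hsum.trans hPn.symm
    exact_mod_cast this
  have hle : ‖P ξ‖ ^ 2 ≤ ‖ξ‖ * ‖P ξ‖ := by
    have h1 : ‖((‖P ξ‖ ^ 2 : ℝ) : ℂ)‖ ≤ ‖ξ‖ * ‖P ξ‖ := by
      rw [hPn]; exact norm_inner_le_norm _ _
    rw [Complex.norm_real, Real.norm_of_nonneg (by positivity)] at h1
    exact h1
  have h1 : ‖P ξ‖ ≤ ‖ξ‖ := by
    by_contra hlt
    push Not at hlt
    have := norm_nonneg ξ
    nlinarith
  rw [e]
  have := norm_nonneg (P ξ)
  nlinarith

end LSumAux

open LSumAux

theorem prove_L_sum : L_sum.{u} := by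
  intro H _ _ _ M I a b haM hbM ha hab hoa hob
  have hb : ∀ i, IsPI (b i) := fun i => isPI_of_idem (by rw [← hab i]; exact idem_of_isPI (ha i))
  have hbe : ∀ i, star (b i) * b i * star (b i) = star (b i) := fun i => by
    have := isPI_star (hb i)
    unfold IsPI at this
    rwa [star_star] at this
  have hae : ∀ i, a i * (star (a i) * a i) = a i := fun i => by
    rw [← mul_assoc]; exact ha i
  -- summability
  have hnorm : ∀ i x, ‖a i x‖ ≤ ‖x‖ := by
    intro i x
    have h := ha i
    have h1 : ‖star (a i) * a i‖ = ‖a i‖ * ‖a i‖ := CStarRing.norm_star_mul_self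
    have h2 : ‖star (a i) * a i‖ = ‖star (a i) * a i‖ * ‖star (a i) * a i‖ := by
      have := @CStarRing.norm_star_mul_self (H →L[ℂ] H) _ _ _ (star (a i) * a i)
      rw [star_mul, star_star, idem_of_isPI h] at this
      exact this
    have h0 := norm_nonneg (a i)
    have h4 : ‖a i‖ ≤ 1 := by
      by_contra hlt
      push Not at hlt
      have h3 : 1 < ‖a i‖ * ‖a i‖ := by nlinarith
      rw [h1] at h2
      nlinarith
    exact ((a i).le_opNorm x).trans (by nlinarith [norm_nonneg x])
  have horth : OrthogonalFamily ℂ (fun i => LinearMap.range (a i : H →ₗ[ℂ] H))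
      (fun i => (LinearMap.range (a i : H →ₗ[ℂ] H)).subtypeₗᵢ) := by
    intro i j hij
    rintro ⟨_, x, rfl⟩ ⟨_, y, rfl⟩
    change ⟪a i x, a j y⟫_ℂ = 0
    rw [← inner_star_right, ← mul_apply_eq_comp, hoa i j hij]
    simp
  have hsq : ∀ ξ, Summable fun i => ‖a i (star (b i) ξ)‖ ^ 2 := by
    intro ξ
    refine Summable.of_nonneg_of_le (fun _ => by positivity)
      (fun i => ?_) (summable_of_sum_le (f := fun i => ‖(star (b i)) ξ‖ ^ 2) (c := ‖ξ‖ ^ 2)
        (fun _ => by positivity) (fun s => bessel b hb hob s ξ))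
    exact pow_le_pow_left₀ (norm_nonneg _) (hnorm i _) 2
  have hsum : ∀ ξ, Summable fun i => a i (star (b i) ξ) := by
    intro ξ
    have := (horth.summable_iff_norm_sq_summable
      (fun i => ⟨a i (star (b i) ξ), ⟨star (b i) ξ, rfl⟩⟩)).2 (by simpa using hsq ξ)
    simpa using this
  have hfin : ∀ ξ (s : Finset I), ‖∑ i ∈ s, a i (star (b i) ξ)‖ ≤ ‖ξ‖ := by
    intro ξ s
    have h1 := horth.norm_sum (fun i => ⟨a i (star (b i) ξ), ⟨star (b i) ξ, rfl⟩⟩) s
    change ‖∑ i ∈ s, a i (star (b i) ξ)‖ ^ 2 = ∑ i ∈ s, ‖a i (star (b i) ξ)‖ ^ 2 at h1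
    have h2 : ‖∑ i ∈ s, a i (star (b i) ξ)‖ ^ 2 ≤ ‖ξ‖ ^ 2 := by
      refine h1.le.trans ?_
      refine le_trans (Finset.sum_le_sum fun i _ => ?_) (bessel b hb hob s ξ)
      exact pow_le_pow_left₀ (norm_nonneg _) (hnorm i _) 2
    exact le_of_sq_le_sq h2 (norm_nonneg _)
  let V₀ : H →ₗ[ℂ] H :=
    { toFun := fun ξ => ∑' i, a i (star (b i) ξ)
      map_add' := fun x y => by
        rw [← (hsum x).tsum_add (hsum y)]
        simp
      map_smul' := fun c x => by
        simp only [map_smul, RingHom.id_apply]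
        exact (hsum x).tsum_const_smul c }
  let V : H →L[ℂ] H := V₀.mkContinuous 1 (fun ξ => by
    rw [one_mul]
    exact le_of_tendsto' (hsum ξ).hasSum.norm (hfin ξ))
  have hV : ∀ ξ, V ξ = ∑' i, a i (star (b i) ξ) := fun ξ => rfl
  have hyV : ∀ (y : H →L[ℂ] H) ξ, y (V ξ) = ∑' i, y (a i (star (b i) ξ)) := by
    intro y ξ
    rw [hV]
    exact y.map_tsum (hsum ξ)
  have hVb : ∀ j, V * b j = a j := by
    intro j
    ext ξ
    rw [mul_apply_eq_comp, hV, tsum_eq_single j]
    · rw [← mul_apply_eq_comp, ← mul_apply_eq_comp, mul_assoc,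
        ← hab j, hae]
    · intro i hij
      rw [← mul_apply_eq_comp (star (b i)), hob i j hij]
      simp
  have haV : ∀ j, star (a j) * V = star (b j) := by
    intro j
    ext ξ
    rw [mul_apply_eq_comp, hyV, tsum_eq_single j]
    · rw [← mul_apply_eq_comp, ← mul_apply_eq_comp, hab j, hbe]
    · intro i hij
      rw [← mul_apply_eq_comp (star (a j)), hoa j i hij.symm]
      simp
  refine ⟨V, ?_, hVb, ?_, ?_, ?_⟩
  · rw [← VonNeumannAlgebra.commutant_commutant M, VonNeumannAlgebra.mem_commutant_iff]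
    intro y hy
    rw [VonNeumannAlgebra.mem_commutant_iff] at hy
    ext ξ
    rw [mul_apply_eq_comp, mul_apply_eq_comp, hyV, hV]
    congr 1
    ext i
    have h1 := hy (a i) (haM i)
    have h2 := hy (star (b i)) (star_mem (hbM i))
    have h3 : y * (a i * star (b i)) = (a i * star (b i)) * y := by
      rw [← mul_assoc, ← h1, mul_assoc, ← h2, mul_assoc]
    exact congrArg (fun T : H →L[ℂ] H => T ξ) h3
  · intro j
    have := congrArg star (haV j)
    rwa [star_mul, star_star, star_star] at this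
  · intro x hx
    ext ξ
    rw [mul_apply_eq_comp, hV]
    have : ∀ i, a i (star (b i) (x ξ)) = 0 := fun i => by
      rw [← mul_apply_eq_comp (star (b i)), hx i]; simp
    simp [this]
  · intro x hx
    ext ξ
    rw [mul_apply_eq_comp, hyV]
    have : ∀ i, x (a i (star (b i) ξ)) = 0 := fun i => by
      rw [← mul_apply_eq_comp x, hx i]; simp
    simp [this]

end H744R2.KZ
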