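import Mathlib
import Pool.Agent.H744R2.KZ.Props
import Pool.Agent.H227R2.KZ.LSum

open scoped ComplexOrder InnerProductSpace ComplexConjugate Topology
open Finset Filter

noncomputable section

namespace H744R2.KZ

open H759R2.Kad

universe u

open LSumAux

theorem prove_L_inf (h1 : L_sum.{u}) : L_inf.{u} := by
  intro H _ _ _ M z e hz heM he I _ f hfM hff hfo hzf hx
  obtain ⟨⟨hzs, hzz⟩, hzM, hzc⟩ := hz
  obtain ⟨hes, hee⟩ := he
  have hze : z * e * (z * e) = z * e := by
    rw [hzc e heM, mul_assoc, ← mul_assoc z e z, hzc e heM, mul_assoc e z z, hzz, ← mul_assoc, hee]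
  have hPI : ∀ i, IsPI (f i) := fun i => isPI_of_idem (by rw [hff i]; exact hze)
  have hφ : Nonempty ((I ⊕ I) ≃ I) := by
    rw [← Cardinal.eq, Cardinal.mk_sum]
    simp only [Cardinal.lift_id]
    exact Cardinal.add_eq_self (Cardinal.aleph0_le_mk I)
  obtain ⟨φ⟩ := hφ
  obtain ⟨s, hsM, hs1, hs2, hs3, hs4⟩ := h1 H M I (fun i => f (φ (Sum.inl i))) f
    (fun i => hfM _) hfM (fun i => hPI _) (fun i => by simp only [hff])
    (fun i j hij => hfo _ _ (by simpa using hij)) hfo
  obtain ⟨t, htM, ht1, ht2, ht3, ht4⟩ := h1 H M I (fun i => f (φ (Sum.inr i))) f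
    (fun i => hfM _) hfM (fun i => hPI _) (fun i => by simp only [hff])
    (fun i j hij => hfo _ _ (by simpa using hij)) hfo
  have hkill : ∀ i, (1 - z) * f i = 0 := fun i => by rw [sub_mul, one_mul, hzf, sub_self]
  have hkill' : ∀ i, star (f i) * (1 - z) = 0 := fun i => by
    have := congrArg star (hkill i)
    rw [star_mul, star_sub, star_one, hzs, star_zero] at this
    exact this
  -- s = s z, etc
  have hsz : s * z = s := by
    have := hs3 (1 - z) hkill'
    rw [mul_sub, mul_one, sub_eq_zero] at this
    exact this.symm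
  have htz : t * z = t := by
    have := ht3 (1 - z) hkill'
    rw [mul_sub, mul_one, sub_eq_zero] at this
    exact this.symm
  have hzs' : z * s = s := by
    have := hs4 (1 - z) (fun i => hkill _)
    rw [sub_mul, one_mul, sub_eq_zero] at this
    exact this.symm
  have hzt' : z * t = t := by
    have := ht4 (1 - z) (fun i => hkill _)
    rw [sub_mul, one_mul, sub_eq_zero] at this
    exact this.symm
  have hss : star s * z = star s := by
    have := congrArg star hzs'
    rwa [star_mul, hzs] at this
  have htt : star t * z = star t := by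
    have := congrArg star hzt'
    rwa [star_mul, hzs] at this
  refine ⟨s, hsM, t, htM, ?_, ?_, ?_⟩
  · have := hx (star s * s - z) (fun i => by
      rw [sub_mul, mul_assoc, hs1, hs2, hzf, sub_self])
    rw [sub_mul, mul_assoc, hsz, hzz, sub_eq_zero] at this
    exact this
  · have := hx (star t * t - z) (fun i => by
      rw [sub_mul, mul_assoc, ht1, ht2, hzf, sub_self])
    rw [sub_mul, mul_assoc, htz, hzz, sub_eq_zero] at this
    exact this
  · have hst : ∀ i, star s * f (φ (Sum.inr i)) = 0 := fun i => by
      have := hs4 (star (f (φ (Sum.inr i)))) (fun j => hfo _ _ (by simp))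
      have := congrArg star this
      rwa [star_mul, star_star, star_zero] at this
    have hts : ∀ i, star t * f (φ (Sum.inl i)) = 0 := fun i => by
      have := ht4 (star (f (φ (Sum.inl i)))) (fun j => hfo _ _ (by simp))
      have := congrArg star this
      rwa [star_mul, star_star, star_zero] at this
    have := hx (s * star s + t * star t - z) (fun j => by
      obtain ⟨k, rfl⟩ := φ.surjective j
      rcases k with i | i
      · rw [sub_mul, add_mul, mul_assoc, mul_assoc, hs2, hts, hs1, hzf]; simp
      · rw [sub_mul, add_mul, mul_assoc, mul_assoc, ht2, hst, ht1, hzf]; simp)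
    rw [sub_mul, add_mul, mul_assoc, mul_assoc, hss, htt, hzz, sub_eq_zero] at this
    exact this

end H744R2.KZ
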